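import Pool.Graph.R_seed8.Y139.SM.Defs

/-!
# The defects of Tate's conjecture for several varieties: definitions

`X_j`, `j` in a finite set `J`, are smooth projective varieties over a number field `K`, of dimension
`d_j`, `0 ≤ m_j ≤ d_j`, `N_j` the `2m_j`-th Betti number and `V_j` a part of `H^{2m_j}(X_j)(m_j)`, for
example the space `A^{m_j}(X_j) ⊗ ℚ` of the classes of the algebraic cycles defined over the algebraic
closure; for `m_j = 1` this is `NS(X_j) ⊗ ℚ`.  `T_j` is the transcendental part, the complement of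
`V_j(-m_j)` in `H^{2m_j}(X_j)`; `T_i ⊗ T_j` is a part of `H^{2m_i + 2m_j}(X_i × X_j)`.
-/

set_option autoImplicit false

namespace Pool.Agent.H28.MR

open NumberField IsDedekindDomain Filter Topology Polynomial
open Pool.Agent.W353.EF (LFun)
open Pool.Agent.W353.EH (edgePoint size)
open Pool.Agent.W353.AT (IsArtin IsTwistedSystem twistRank TwistDefect)
open Pool.Agent.Y139.SM (IsTranscendental)

variable {K : Type} [Field K] [NumberField K]

/-- The polynomials `B v` are the Euler factors of `L(T ⊗ T', s)` for the transcendental parts of two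
varieties: for almost all primes `v`, `B_v(z) = ∏_a ∏_b (1 - β_a β'_b z)` for the eigenvalues `β_a` and
`β'_b` of the geometric Frobenius on `T` and `T'`; at the other primes `B v` is an arbitrary polynomial,
and no factor `1 / B_v(q_v^{-s})` has a pole at the edge `s = m + m' + 1`. -/
def IsPairSystem {l l' : ℕ} (X : Set (MvPolynomial (Fin l) (𝓞 K))) (d m N : ℕ)
    {V : Type} [AddCommGroup V] [Module ℚ V] [FiniteDimensional ℚ V]
    (ρ : Representation ℚ Gal(AlgebraicClosure K/K) V)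
    (X' : Set (MvPolynomial (Fin l') (𝓞 K))) (d' m' N' : ℕ)
    {V' : Type} [AddCommGroup V'] [Module ℚ V'] [FiniteDimensional ℚ V']
    (ρ' : Representation ℚ Gal(AlgebraicClosure K/K) V')
    (B : HeightOneSpectrum (𝓞 K) → ℂ[X]) : Prop :=
  (∀ᶠ v in cofinite, ∃ (β : Fin (N - Module.finrank ℚ V) → ℂ)
    (β' : Fin (N' - Module.finrank ℚ V') → ℂ), IsTranscendental X d m N ρ v β ∧
    IsTranscendental X' d' m' N' ρ' v β' ∧
    ∀ z : ℂ, (B v).eval z = ∏ a, ∏ b, (1 - β a * β' b * z)) ∧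
  ∀ v, (B v).eval ((Ideal.absNorm v.asIdeal : ℂ) ^ (-edgePoint (2 * (m + m')) 0)) ≠ 0

/-- `L(T ⊗ T', s)` has a pole of order `p` at the edge `s = m + m' + 1` (a zero of order `-p` for
`p < 0`), in the sense that `log |L(m + m' + 1 + ε)| / log(1/ε)` tends to `p` as `ε → 0+`. -/
def PairPole {l l' : ℕ} (X : Set (MvPolynomial (Fin l) (𝓞 K))) (d m N : ℕ)
    {V : Type} [AddCommGroup V] [Module ℚ V] [FiniteDimensional ℚ V]
    (ρ : Representation ℚ Gal(AlgebraicClosure K/K) V)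
    (X' : Set (MvPolynomial (Fin l') (𝓞 K))) (d' m' N' : ℕ)
    {V' : Type} [AddCommGroup V'] [Module ℚ V'] [FiniteDimensional ℚ V']
    (ρ' : Representation ℚ Gal(AlgebraicClosure K/K) V') (p : ℤ) : Prop :=
  ∃ B : HeightOneSpectrum (𝓞 K) → ℂ[X], IsPairSystem X d m N ρ X' d' m' N' ρ' B ∧
    Tendsto (size (2 * (m + m')) 0 B) (𝓝[>] 0) (𝓝 (p : ℝ))

section
variable {J : Type} [Fintype J] {l : J → ℕ} (X : ∀ j, Set (MvPolynomial (Fin (l j)) (𝓞 K)))
  (d m N : J → ℕ) {V : J → Type} [∀ j, AddCommGroup (V j)] [∀ j, Module ℚ (V j)]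
  [∀ j, FiniteDimensional ℚ (V j)]
  (ρ : ∀ j, Representation ℚ Gal(AlgebraicClosure K/K) (V j))

/-- (No continuation is assumed.)  Let `χ_k` be finitely many pairwise inequivalent irreducible Artin
representations of `K`, `x_{jk}(ε) = log |L(H^{2m_j}(X_j) ⊗ χ_k, m_j + 1 + ε)| / log(1/ε) -
dim (V_j ⊗ χ_k)^G`, where the limit `0` is predicted by Tate, and
`S_{ij}(ε) = log |L(T_i ⊗ T_j, m_i + m_j + 1 + ε)| / log(1/ε)`.  For all real `c_j`, every `η > 0` and all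
small `ε > 0` the L-functions do not vanish at these points, and
`∑_k (∑_j c_j x_{jk}(ε))² ≤ ∑_{i,j} c_i c_j S_{ij}(ε) + η`. -/
def Sizes : Prop :=
  ∀ (κ : Type) [Fintype κ] (n : κ → ℕ)
    (χ : ∀ k, Representation ℂ Gal(AlgebraicClosure K/K) (Fin (n k) → ℂ))
    (B : J → κ → HeightOneSpectrum (𝓞 K) → ℂ[X]) (P : J → J → HeightOneSpectrum (𝓞 K) → ℂ[X]),
    (∀ k, IsArtin (χ k)) → (∀ k, (χ k).IsIrreducible) →
    (∀ k k', k ≠ k' → IsEmpty ((χ k).Equiv (χ k'))) →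
    (∀ j k, IsTwistedSystem (X j) (d j) (2 * m j) (N j) (χ k) 0 (B j k)) →
    (∀ i j, IsPairSystem (X i) (d i) (m i) (N i) (ρ i) (X j) (d j) (m j) (N j) (ρ j) (P i j)) →
    (∀ j k, ∀ᶠ ε : ℝ in 𝓝[>] 0, LFun (B j k) (edgePoint (2 * m j) 0 + ε) ≠ 0) ∧
    (∀ i j, ∀ᶠ ε : ℝ in 𝓝[>] 0, LFun (P i j) (edgePoint (2 * (m i + m j)) 0 + ε) ≠ 0) ∧
    ∀ c : J → ℝ, ∀ η : ℝ, 0 < η → ∀ᶠ ε : ℝ in 𝓝[>] 0,
      ∑ k, (∑ j, c j * (size (2 * m j) 0 (B j k) ε - twistRank (ρ j) (χ k))) ^ 2 ≤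
        ∑ i, ∑ j, c i * c j * size (2 * (m i + m j)) 0 (P i j) ε + η

/-- Let `L(T_i ⊗ T_j, s)` have a pole of order `p_{ij}` at the edge, for all `i`, `j`, and let `χ` be an
irreducible Artin representation of `K`, for example the trivial one, such that `L(H^{2m_j}(X_j) ⊗ χ, s)`
has the integral defect `δ_j` for all `j` (Tate's conjecture says that `δ_j = 0`; for `χ = 1` and
`m_j = 1` the defect is the rank of `NS(X_j/K)` minus the order of the pole at `s = 2`).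
* `(∑ c_j δ_j)² ≤ ∑ c_i c_j p_{ij}` for all real `c_j`.
* If `p_{ij} = 0` for all `i ≠ j`, then `∑_{δ_j ≠ 0} δ_j² / p_{jj} ≤ 1`; if, moreover, `p_{jj} ≤ p` for
  all `j`, then at most `p` of the varieties have a defect `δ_j ≠ 0`.
* If `p_{ii} = p_{jj} = 1`, `δ_i ≠ 0` and `δ_j ≠ 0`, then `δ_i = ±1`, `δ_j = ±1` and
  `p_{ij} = δ_i δ_j`. -/
def Repulsion : Prop :=
  ∀ (n : ℕ) (χ : Representation ℂ Gal(AlgebraicClosure K/K) (Fin n → ℂ)) (p : J → J → ℤ)
    (δ : J → ℤ), IsArtin χ → χ.IsIrreducible →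
    (∀ i j, PairPole (X i) (d i) (m i) (N i) (ρ i) (X j) (d j) (m j) (N j) (ρ j) (p i j)) →
    (∀ j, TwistDefect (X j) (d j) (m j) (N j) (ρ j) χ (δ j)) →
    (∀ c : J → ℝ, (∑ j, c j * δ j) ^ 2 ≤ ∑ i, ∑ j, c i * c j * p i j) ∧
    ((∀ i j, i ≠ j → p i j = 0) →
      (∀ j, δ j ≠ 0 → 0 < p j j) ∧ ∑ j, (δ j : ℝ) ^ 2 / p j j ≤ 1 ∧
      ∀ q : ℕ, (∀ j, p j j ≤ q) → Nat.card {j // δ j ≠ 0} ≤ q) ∧
    ∀ i j, p i i = 1 → p j j = 1 → δ i ≠ 0 → δ j ≠ 0 →
      (δ i = 1 ∨ δ i = -1) ∧ (δ j = 1 ∨ δ j = -1) ∧ p i j = δ i * δ j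

end

end Pool.Agent.H28.MR
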