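import Pool.Agent.H28.MR.Pair

set_option autoImplicit false

namespace Pool.Agent.H28.MR

open Complex Filter Topology ComplexConjugate NumberField IsDedekindDomain Asymptotics
  Pool.Agent.W401.Cheb Pool.Agent.W540.BE Pool.Agent.W353.L1 Polynomial Pool.Agent.Y139.SM
open Pool.Agent.H341R2 (lam lam_tendsto)
open Pool.Agent.W353.TD (ch IsPart)
open Pool.Agent.W353.PV (tF pick_spec)
open Pool.Agent.W353.EF (LFun)
open Pool.Agent.W353.EH (edgePoint size)
open Pool.Agent.W353.AT (tC abs_tC IsArtin exists_common tw_C IsTwistedSystem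
  twistRank TwistDefect)

section
variable {K : Type} [Field K] [NumberField K]

/-- linear combinations -/
theorem comb {κ : Type*} (A : Finset κ) {φ : κ → HeightOneSpectrum (𝓞 K) → ℝ} {B : κ → ℝ}
    (hφ : ∀ k v, |φ k v| ≤ B k) (c : κ → ℝ) {x : κ → ℝ → ℝ}
    (hx : ∀ k ∈ A, Tendsto (fun ε : ℝ => (EP (nm K) ε (φ k)) / lam ε - x k ε) (𝓝[>] 0) (𝓝 0)) :
    Tendsto (fun ε : ℝ => (EP (nm K) ε fun v => ∑ k ∈ A, c k * φ k v) / lam ε -
      ∑ k ∈ A, c k * x k ε) (𝓝[>] 0) (𝓝 0) := by
  classical
  have h1 : Tendsto (fun ε : ℝ => ∑ k ∈ A, c k * ((EP (nm K) ε (φ k)) / lam ε - x k ε))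
      (𝓝[>] 0) (𝓝 0) := by
    have h2 := tendsto_finsetSum A fun k hk => (hx k hk).const_mul (c k)
    simpa using h2
  refine h1.congr' ?_
  filter_upwards [self_mem_nhdsWithin] with ε hε
  have hε0 : (0 : ℝ) < ε := hε
  rw [EP_sum normSys hε0 A (φ := fun k v => c k * φ k v) (B := fun k => |c k| * B k)
    (fun k _ v => by
      rw [abs_mul]
      exact mul_le_mul_of_nonneg_left (hφ k v) (abs_nonneg _))]
  rw [Finset.sum_div, ← Finset.sum_sub_distrib]
  refine Finset.sum_congr rfl fun k _ => ?_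
  rw [EP_const_mul]
  ring

variable {J : Type} [Fintype J] {l : J → ℕ} {X : ∀ j, Set (MvPolynomial (Fin (l j)) (𝓞 K))}
  {d m N : J → ℕ} {V : J → Type} [∀ j, AddCommGroup (V j)] [∀ j, Module ℚ (V j)]
  [∀ j, FiniteDimensional ℚ (V j)]
  {ρ : ∀ j, Representation ℚ (GK K) (V j)}

theorem sizes (hm : ∀ j, m j ≤ d j) (hV : ∀ j, IsPart (X j) (d j) (m j) (N j) (ρ j)) :
    Sizes X d m N ρ := by
  classical
  intro κ _ n χ B P hχ hirr hne hB hP
  choose σ hσ using exists_isFrob (F := K)
  have hm2 : ∀ j, 2 * m j ≤ 2 * d j := fun j => by have := hm j; omega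
  have hgood := fun j => good_of_part (hm2 j) (hV j) hσ
  have htw := fun j k => tw_C (hm2 j) hσ (hgood j) (hV j).1 ⟨n k, χ k⟩ (hχ k) (B j k) (hB j k)
  have hpr := fun i j => pair_size (hm2 i) (hm2 j) hσ (hgood i) (hgood j) (P i j) (hP i j)
  refine ⟨fun j k => (htw j k).1, fun i j => (hpr i j).1, fun c η hη => ?_⟩
  obtain ⟨U, hUn, hU, hx1⟩ := exists_common χ hχ
  have hfin : Finite (GK K ⧸ U) := Subgroup.quotient_finite_of_isOpen U hU
  set T : J → HeightOneSpectrum (𝓞 K) → ℝ := fun j =>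
    tC (ρ j) (X j) (d j) (2 * m j) (N j) (N j - Module.finrank ℚ (V j)) σ with hT
  set s : J → ℝ := fun j => ((N j - Module.finrank ℚ (V j) : ℕ) : ℝ) with hs
  have hTs : ∀ j v, |T j v| ≤ s j := fun j v => abs_tC _ _ _ _ _ _ _ _
  have hs0 : ∀ j, 0 ≤ s j := fun j => Nat.cast_nonneg _
  refine bessel_two U hU Finset.univ χ hx1 (fun _ => 0) σ hσ
    (T := fun v => ∑ j, c j * T j v)
    (s := ∑ j, |c j| * s j) (Finset.sum_nonneg fun j _ => mul_nonneg (abs_nonneg _) (hs0 j))
    (fun v => ?_)
    (x := fun k ε => ∑ j, c j * (size (2 * m j) 0 (B j k) ε - twistRank (ρ j) (χ k)))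
    (fun k _ => ?_)
    (S := fun ε => ∑ i, ∑ j, c i * c j * size (2 * (m i + m j)) 0 (P i j) ε) ?_
    (fun k _ => hirr k) (fun k _ k' _ h _ => hne k k' h) hη
  · refine (Finset.abs_sum_le_sum_abs _ _).trans (Finset.sum_le_sum fun j _ => ?_)
    rw [abs_mul]
    exact mul_le_mul_of_nonneg_left (hTs j v) (abs_nonneg _)
  · have h1 := comb Finset.univ (φ := fun j v => T j v * RR (χ k) 0 σ v)
      (B := fun j => s j * n k) (fun j v => by
        rw [abs_mul]
        exact mul_le_mul (hTs j v) (abs_RR_le U (χ k) (hx1 k) _ _ _) (abs_nonneg _) (hs0 j)) c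
      (x := fun j ε => size (2 * m j) 0 (B j k) ε - twistRank (ρ j) (χ k))
      (fun j _ => (htw j k).2)
    refine h1.congr fun ε => ?_
    congr 3
    funext v
    rw [Finset.sum_mul]
    exact Finset.sum_congr rfl fun j _ => by ring
  · have h1 := comb (Finset.univ : Finset (J × J)) (φ := fun x v => T x.1 v * T x.2 v)
      (B := fun x => s x.1 * s x.2) (fun x v => by
        rw [abs_mul]
        exact mul_le_mul (hTs x.1 v) (hTs x.2 v) (abs_nonneg _) (hs0 x.1)) (fun x => c x.1 * c x.2)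
      (x := fun x ε => size (2 * (m x.1 + m x.2)) 0 (P x.1 x.2) ε)
      (fun x _ => (hpr x.1 x.2).2)
    refine h1.congr fun ε => ?_
    rw [Fintype.sum_prod_type]
    congr 3
    funext v
    rw [Fintype.sum_prod_type, Finset.sum_mul_sum]
    exact Finset.sum_congr rfl fun i _ => Finset.sum_congr rfl fun j _ => by ring

/-- the order of the pole of `L(T ⊗ T', s)` does not depend on the order of the factors -/
theorem pole_symm (hm : ∀ j, m j ≤ d j) (hV : ∀ j, IsPart (X j) (d j) (m j) (N j) (ρ j))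
    {i j : J} {p p' : ℤ}
    (h : PairPole (X i) (d i) (m i) (N i) (ρ i) (X j) (d j) (m j) (N j) (ρ j) p)
    (h' : PairPole (X j) (d j) (m j) (N j) (ρ j) (X i) (d i) (m i) (N i) (ρ i) p') : p = p' := by
  choose σ hσ using exists_isFrob (F := K)
  have hm2 : ∀ j, 2 * m j ≤ 2 * d j := fun j => by have := hm j; omega
  have hgood := fun j => good_of_part (hm2 j) (hV j) hσ
  obtain ⟨B, hB, hlim⟩ := h
  obtain ⟨B', hB', hlim'⟩ := h'
  have h1 := (pair_size (hm2 i) (hm2 j) hσ (hgood i) (hgood j) B hB).2.add hlim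
  have h2 := (pair_size (hm2 j) (hm2 i) hσ (hgood j) (hgood i) B' hB').2.add hlim'
  simp only [sub_add_cancel, zero_add] at h1 h2
  have e : (fun v => tC (ρ i) (X i) (d i) (2 * m i) (N i) (N i - Module.finrank ℚ (V i)) σ v *
      tC (ρ j) (X j) (d j) (2 * m j) (N j) (N j - Module.finrank ℚ (V j)) σ v) =
      fun v => tC (ρ j) (X j) (d j) (2 * m j) (N j) (N j - Module.finrank ℚ (V j)) σ v *
      tC (ρ i) (X i) (d i) (2 * m i) (N i) (N i - Module.finrank ℚ (V i)) σ v := by
    funext v
    ring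
  rw [e] at h1
  have h3 := tendsto_nhds_unique h1 h2
  exact_mod_cast h3

theorem repulsion (hm : ∀ j, m j ≤ d j) (hV : ∀ j, IsPart (X j) (d j) (m j) (N j) (ρ j)) :
    Repulsion X d m N ρ := by
  classical
  intro n χ p δ hχ hirr hp hδ
  have hsym : ∀ i j, p i j = p j i := fun i j => pole_symm hm hV (hp i j) (hp j i)
  choose P hP hPl using hp
  choose B hB hBl using hδ
  have hmain : ∀ c : J → ℝ, (∑ j, c j * δ j) ^ 2 ≤ ∑ i, ∑ j, c i * c j * p i j := by
    intro c
    refine le_of_forall_pos_le_add fun η hη => ?_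
    have h1 := (sizes hm hV Unit (fun _ => n) (fun _ => χ) (fun j _ => B j) P (fun _ => hχ)
      (fun _ => hirr) (fun k k' h => absurd (Subsingleton.elim k k') h)
      (fun j _ => hB j) hP).2.2 c η hη
    have h2 : Tendsto (fun ε : ℝ => ∑ k : Unit, (∑ j, c j *
        (size (2 * m j) 0 (B j) ε - twistRank (ρ j) χ)) ^ 2) (𝓝[>] 0)
        (𝓝 ((∑ j, c j * δ j) ^ 2)) := by
      have h3 : Tendsto (fun ε : ℝ => ∑ j, c j * (size (2 * m j) 0 (B j) ε - twistRank (ρ j) χ))
          (𝓝[>] 0) (𝓝 (∑ j, c j * ((twistRank (ρ j) χ : ℝ) - δ j - twistRank (ρ j) χ))) :=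
        tendsto_finsetSum _ fun j _ => ((hBl j).sub_const _).const_mul _
      have h4 := h3.pow 2
      have e : (∑ j, c j * ((twistRank (ρ j) χ : ℝ) - δ j - twistRank (ρ j) χ)) ^ 2 =
          (∑ j, c j * δ j) ^ 2 := by
        have e1 : ∀ j, c j * ((twistRank (ρ j) χ : ℝ) - δ j - twistRank (ρ j) χ) =
            -(c j * δ j) := fun j => by ring
        simp only [e1]
        rw [Finset.sum_neg_distrib, neg_sq]
      rw [e] at h4
      simpa using h4
    have h5 : Tendsto (fun ε : ℝ => ∑ i, ∑ j, c i * c j * size (2 * (m i + m j)) 0 (P i j) ε + η)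
        (𝓝[>] 0) (𝓝 (∑ i, ∑ j, c i * c j * p i j + η)) :=
      (tendsto_finsetSum _ fun i _ => tendsto_finsetSum _ fun j _ =>
        (hPl i j).const_mul _).add_const η
    exact le_of_tendsto_of_tendsto h2 h5 h1
  refine ⟨hmain, fun hoff => ?_, fun i j hi hj hδi hδj => ?_⟩
  · -- the off-diagonal terms vanish
    have hdiag : ∀ c : J → ℝ, (∑ j, c j * δ j) ^ 2 ≤ ∑ j, c j ^ 2 * p j j := by
      intro c
      refine (hmain c).trans (le_of_eq ?_)
      refine Finset.sum_congr rfl fun i _ => ?_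
      rw [Finset.sum_eq_single i]
      · ring
      · intro j _ hji
        rw [hoff i j (Ne.symm hji)]
        simp
      · intro h
        exact absurd (Finset.mem_univ i) h
    have hpos : ∀ j, δ j ≠ 0 → 0 < p j j := by
      intro j hj
      have h1 := hdiag (Pi.single j 1)
      rw [Finset.sum_eq_single j (fun k _ hk => by simp [Pi.single_eq_of_ne hk]) (by simp),
        Finset.sum_eq_single j (fun k _ hk => by simp [Pi.single_eq_of_ne hk]) (by simp)] at h1
      simp only [Pi.single_eq_same, one_mul, one_pow] at h1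
      have h2 : (0 : ℝ) < (δ j : ℝ) ^ 2 := by
        have : (δ j : ℝ) ≠ 0 := by exact_mod_cast hj
        positivity
      exact_mod_cast h2.trans_le h1
    have hnn : ∀ j, (0 : ℝ) ≤ (δ j : ℝ) ^ 2 / p j j := by
      intro j
      by_cases h : δ j = 0
      · rw [h]; simp
      · have := hpos j h
        have h2 : (0 : ℝ) < p j j := by exact_mod_cast this
        positivity
    set A : ℝ := ∑ j, (δ j : ℝ) ^ 2 / p j j with hA
    have hA0 : 0 ≤ A := Finset.sum_nonneg fun j _ => hnn j
    have hA1 : A ≤ 1 := by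
      have h1 := hdiag fun j => (δ j : ℝ) / p j j
      have e1 : ∑ j, (δ j : ℝ) / p j j * δ j = A :=
        Finset.sum_congr rfl fun j _ => by ring
      have e2 : ∑ j, ((δ j : ℝ) / p j j) ^ 2 * p j j = A := by
        refine Finset.sum_congr rfl fun j _ => ?_
        by_cases h : δ j = 0
        · rw [h]; simp
        · have h2 : (p j j : ℝ) ≠ 0 := by exact_mod_cast (hpos j h).ne'
          field_simp
      rw [e1, e2] at h1
      nlinarith
    refine ⟨hpos, hA1, fun q hq => ?_⟩
    by_cases hex : ∃ j, δ j ≠ 0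
    swap
    · push Not at hex
      have : IsEmpty {j // δ j ≠ 0} := ⟨fun j => j.2 (hex j.1)⟩
      simp
    obtain ⟨j0, hj0⟩ := hex
    have hq0 : (0 : ℝ) < q := by
      have h1 := hpos j0 hj0
      have h2 := hq j0
      exact_mod_cast (by omega : (0 : ℤ) < q)
    have hterm : ∀ j, (if δ j ≠ 0 then (1 : ℝ) / q else 0) ≤ (δ j : ℝ) ^ 2 / p j j := by
      intro j
      by_cases h : δ j = 0
      · rw [if_neg (not_not.mpr h)]
        exact hnn j
      · rw [if_pos h]
        have h2 : (0 : ℝ) < p j j := by exact_mod_cast hpos j h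
        have h3 : (p j j : ℝ) ≤ q := by exact_mod_cast hq j
        have h4 : (1 : ℝ) ≤ (δ j : ℝ) ^ 2 := by
          have h5 : 1 ≤ δ j ^ 2 := by
            have : 0 < δ j ^ 2 := by positivity
            omega
          exact_mod_cast h5
        rw [div_le_div_iff₀ hq0 h2]
        nlinarith
    have h1 : ∑ j, (if δ j ≠ 0 then (1 : ℝ) / q else 0) ≤ 1 :=
      (Finset.sum_le_sum fun j _ => hterm j).trans hA1
    have h2 : ∑ j, (if δ j ≠ 0 then (1 : ℝ) / q else 0) =
        (Nat.card {j // δ j ≠ 0} : ℝ) * (1 / q) := by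
      rw [Nat.card_eq_fintype_card, Fintype.card_subtype, ← Finset.sum_filter, Finset.sum_const,
        nsmul_eq_mul]
    rw [h2, mul_one_div, div_le_one hq0] at h1
    exact_mod_cast h1
  · -- two exceptional varieties
    have hone : ∀ k, p k k = 1 → δ k ≠ 0 → (δ k = 1 ∨ δ k = -1) := by
      intro k hk hδk
      have h1 := hmain (Pi.single k 1)
      rw [Finset.sum_eq_single k (fun k' _ hk' => by simp [Pi.single_eq_of_ne hk']) (by simp),
        Finset.sum_eq_single k (fun k' _ hk' => by simp [Pi.single_eq_of_ne hk']) (by simp),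
        Finset.sum_eq_single k (fun k' _ hk' => by simp [Pi.single_eq_of_ne hk']) (by simp)] at h1
      simp only [Pi.single_eq_same, one_mul, hk] at h1
      have h2 : δ k ^ 2 ≤ 1 := by exact_mod_cast h1
      have h3 : -1 ≤ δ k := by nlinarith
      have h4 : δ k ≤ 1 := by nlinarith
      omega
    have ei := hone i hi hδi
    have ej := hone j hj hδj
    refine ⟨ei, ej, ?_⟩
    by_cases hij : i = j
    · subst hij
      rw [hi]
      rcases ei with h | h <;> rw [h] <;> norm_num
    -- use `c = a e_i + b e_j`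
    have hgen : ∀ a b : ℝ, (a * δ i + b * δ j) ^ 2 ≤ a ^ 2 + b ^ 2 + 2 * a * b * p i j := by
      intro a b
      have h1 := hmain (Pi.single i a + Pi.single j b)
      have hji : j ≠ i := Ne.symm hij
      have s1 : ∀ f : J → ℝ, ∑ k, (Pi.single i a + Pi.single j b : J → ℝ) k * f k =
          a * f i + b * f j := by
        intro f
        simp only [Pi.add_apply, add_mul, Finset.sum_add_distrib]
        congr 1
        · rw [Finset.sum_eq_single i (fun k' _ hk' => by simp [Pi.single_eq_of_ne hk']) (by simp)]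
          simp
        · rw [Finset.sum_eq_single j (fun k' _ hk' => by simp [Pi.single_eq_of_ne hk']) (by simp)]
          simp
      have s2 : ∑ k, ∑ k', (Pi.single i a + Pi.single j b : J → ℝ) k *
          (Pi.single i a + Pi.single j b : J → ℝ) k' * p k k' =
          a * (a * p i i + b * p i j) + b * (a * p j i + b * p j j) := by
        rw [← s1 fun k => a * p k i + b * p k j]
        refine Finset.sum_congr rfl fun k _ => ?_
        rw [← s1 fun k' => (p k k' : ℝ), Finset.mul_sum]
        exact Finset.sum_congr rfl fun k' _ => by ring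
      rw [s1 fun k => (δ k : ℝ), s2, hi, hj, hsym j i] at h1
      push_cast at h1
      linarith
    have g1 := hgen 1 1
    have g2 := hgen 1 (-1)
    have h5 : (p i j : ℝ) = δ i * δ j := by
      rcases ei with hi' | hi' <;> rcases ej with hj' | hj' <;> rw [hi', hj'] at g1 g2 ⊢ <;>
        push_cast at g1 g2 ⊢ <;> linarith
    exact_mod_cast h5

end

end Pool.Agent.H28.MR
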