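import Pool.Agent.H28.MR.Defs
import Pool.Graph.R_seed8.Y139.SM.Final
import Pool.Graph.R_seed8.Y139.SM.Bessel
import Pool.Graph.R_seed8.Y139.SM.Prod

set_option autoImplicit false

namespace Pool.Agent.H28.MR

open Complex Filter Topology ComplexConjugate NumberField IsDedekindDomain Asymptotics
  Pool.Agent.W401.Cheb Pool.Agent.W540.BE Pool.Agent.W353.L1 Polynomial Pool.Agent.Y139.SM
open Pool.Agent.H341R2 (lam lam_tendsto)
open Pool.Agent.W353.TD (ch IsPart)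
open Pool.Agent.W353.PV (tF pick_spec)
open Pool.Agent.W353.EF (LFun)
open Pool.Agent.W353.EH (edgePoint size)
open Pool.Agent.W353.AT (tC abs_tC IsArtin exists_common tw_C IsTwistedSystem
  twistRank TwistDefect)

section
variable {K : Type} [Field K] [NumberField K]
  {l : ℕ} {X : Set (MvPolynomial (Fin l) (𝓞 K))}
  {d m N : ℕ} {V : Type} [AddCommGroup V] [Module ℚ V] [FiniteDimensional ℚ V]
  {ρ : Representation ℚ (GK K) V}
  {l' : ℕ} {X' : Set (MvPolynomial (Fin l') (𝓞 K))}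
  {d' m' N' : ℕ} {V' : Type} [AddCommGroup V'] [Module ℚ V'] [FiniteDimensional ℚ V']
  {ρ' : Representation ℚ (GK K) V'}

/-- the products of the entries of two lists -/
noncomputable def prd {s s' : ℕ} (β : Fin s → ℂ) (β' : Fin s' → ℂ) (j : Fin (s * s')) : ℂ :=
  β (finProdFinEquiv.symm j).1 * β' (finProdFinEquiv.symm j).2

theorem prd_sum {s s' : ℕ} (β : Fin s → ℂ) (β' : Fin s' → ℂ) :
    ∑ j, prd β β' j = (∑ a, β a) * ∑ b, β' b := by
  unfold prd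
  rw [Equiv.sum_comp (finProdFinEquiv (m := s) (n := s')).symm (fun f => β f.1 * β' f.2),
    Fintype.sum_prod_type, Finset.sum_mul_sum]

theorem prd_prod {s s' : ℕ} (β : Fin s → ℂ) (β' : Fin s' → ℂ) (F : ℂ → ℂ) :
    ∏ j, F (prd β β' j) = ∏ a, ∏ b, F (β a * β' b) := by
  unfold prd
  rw [Equiv.prod_comp (finProdFinEquiv (m := s) (n := s')).symm (fun f => F (β f.1 * β' f.2)),
    Fintype.prod_prod_type]

theorem edge_pair : ((((m + m' : ℕ) : ℝ)) : ℂ) + 1 + ((0 : ℝ) : ℂ) * I =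
    edgePoint (2 * (m + m')) 0 := by
  unfold edgePoint
  push_cast
  ring

theorem det_one (w : ℂ) (g : GK K) :
    LinearMap.det (1 - w • (1 : Representation ℂ (GK K) (Fin 1 → ℂ)) g) = 1 - w := by
  have h1 : (1 - w • (1 : Representation ℂ (GK K) (Fin 1 → ℂ)) g : Module.End ℂ (Fin 1 → ℂ)) =
      (1 - w) • (1 : Module.End ℂ (Fin 1 → ℂ)) := by
    have h2 : (1 : Representation ℂ (GK K) (Fin 1 → ℂ)) g = 1 := rfl
    rw [h2]
    refine LinearMap.ext fun x => ?_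
    change x - w • x = (1 - w) • x
    rw [sub_smul, one_smul]
  rw [h1, LinearMap.det_smul]
  simp

/-- **The sizes of the products of two transcendental parts.** -/
theorem pair_size (hm : 2 * m ≤ 2 * d) (hm' : 2 * m' ≤ 2 * d')
    {σ : HeightOneSpectrum (𝓞 K) → GK K} (hσ : ∀ v, IsFrob v (σ v))
    (hgood : ∀ᶠ v in cofinite, |tF X d (2 * m) N K v - ch ρ (σ v)⁻¹| ≤
      (N - Module.finrank ℚ V : ℕ))
    (hgood' : ∀ᶠ v in cofinite, |tF X' d' (2 * m') N' K v - ch ρ' (σ v)⁻¹| ≤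
      (N' - Module.finrank ℚ V' : ℕ))
    (B : HeightOneSpectrum (𝓞 K) → ℂ[X]) (hB : IsPairSystem X d m N ρ X' d' m' N' ρ' B) :
    (∀ᶠ ε : ℝ in 𝓝[>] 0, LFun B (edgePoint (2 * (m + m')) 0 + ε) ≠ 0) ∧
    Tendsto (fun ε : ℝ => (EP (nm K) ε fun v =>
      tC ρ X d (2 * m) N (N - Module.finrank ℚ V) σ v *
      tC ρ' X' d' (2 * m') N' (N' - Module.finrank ℚ V') σ v) / lam ε -
      size (2 * (m + m')) 0 B ε) (𝓝[>] 0) (𝓝 0) := by
  classical
  obtain ⟨U, hUn, hU, hx1⟩ := exists_common (κ := Unit) (n := fun _ => 1)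
    (fun _ => (1 : Representation ℂ (GK K) (Fin 1 → ℂ))) fun _ => one_artin
  have hx1 : ∀ u ∈ U, (1 : Representation ℂ (GK K) (Fin 1 → ℂ)) u = 1 := hx1 ()
  have hfin : Finite (GK K ⧸ U) := Subgroup.quotient_finite_of_isOpen U hU
  set s : ℕ := N - Module.finrank ℚ V with hs
  set s' : ℕ := N' - Module.finrank ℚ V' with hs'
  set γ : HeightOneSpectrum (𝓞 K) → (Fin s → ℂ) × (Fin s' → ℂ) := fun v =>
    if h : ∃ x : (Fin s → ℂ) × (Fin s' → ℂ), IsTranscendental X d m N ρ v x.1 ∧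
      IsTranscendental X' d' m' N' ρ' v x.2 ∧
      ∀ z : ℂ, (B v).eval z = ∏ a, ∏ b, (1 - x.1 a * x.2 b * z) then h.choose else 0 with hγ
  have hb : ∀ᶠ v in cofinite, IsTranscendental X d m N ρ v (γ v).1 ∧
      IsTranscendental X' d' m' N' ρ' v (γ v).2 ∧
      ∀ z : ℂ, (B v).eval z = ∏ a, ∏ b, (1 - (γ v).1 a * (γ v).2 b * z) := by
    refine hB.1.mono fun v hv => ?_
    obtain ⟨β, β', h1, h2, h3⟩ := hv
    have hex : ∃ x : (Fin s → ℂ) × (Fin s' → ℂ), IsTranscendental X d m N ρ v x.1 ∧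
      IsTranscendental X' d' m' N' ρ' v x.2 ∧
      ∀ z : ℂ, (B v).eval z = ∏ a, ∏ b, (1 - x.1 a * x.2 b * z) := ⟨(β, β'), h1, h2, h3⟩
    have h4 := hex.choose_spec
    simp only [hγ, dif_pos hex]
    exact h4
  have hf : ∀ᶠ v in cofinite, (∀ j, ‖(γ v).1 j‖ = (nm K v : ℝ) ^ m) ∧
      ((tF X d (2 * m) N K v - ch ρ (σ v)⁻¹ : ℝ) : ℂ) * ((nm K v : ℕ) : ℂ) ^ m = ∑ j, (γ v).1 j :=
    hb.mono fun v hv => tr_facts hm hv.1 (hσ v)
  have hf' : ∀ᶠ v in cofinite, (∀ j, ‖(γ v).2 j‖ = (nm K v : ℝ) ^ m') ∧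
      ((tF X' d' (2 * m') N' K v - ch ρ' (σ v)⁻¹ : ℝ) : ℂ) * ((nm K v : ℕ) : ℂ) ^ m' =
        ∑ j, (γ v).2 j :=
    hb.mono fun v hv => tr_facts hm' hv.2.1 (hσ v)
  set π : HeightOneSpectrum (𝓞 K) → Fin (s * s') → ℂ := fun v => prd (γ v).1 (γ v).2 with hπ
  have hnorm : ∀ᶠ v in cofinite, ∀ j, ‖π v j‖ = (nm K v : ℝ) ^ (((m + m' : ℕ) : ℝ)) := by
    filter_upwards [hf, hf'] with v hv hv' j
    simp only [hπ]
    unfold prd
    rw [norm_mul, hv.1, hv'.1, Real.rpow_natCast, pow_add]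
  have hsum : ∀ᶠ v in cofinite, ∑ j, π v j =
      (((tF X d (2 * m) N K v - ch ρ (σ v)⁻¹) * (tF X' d' (2 * m') N' K v - ch ρ' (σ v)⁻¹) : ℝ) : ℂ) *
        ((nm K v : ℕ) : ℂ) ^ (m + m') := by
    filter_upwards [hf, hf'] with v hv hv'
    simp only [hπ]
    rw [prd_sum, ← hv.2, ← hv'.2, pow_add]
    push_cast
    ring
  have hreal : ∀ᶠ v in cofinite, (∑ j, π v j).im = 0 := by
    refine hsum.mono fun v hv => ?_
    rw [hv]
    have e : (((tF X d (2 * m) N K v - ch ρ (σ v)⁻¹) *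
        (tF X' d' (2 * m') N' K v - ch ρ' (σ v)⁻¹) : ℝ) : ℂ) * ((nm K v : ℕ) : ℂ) ^ (m + m') =
        (((tF X d (2 * m) N K v - ch ρ (σ v)⁻¹) *
        (tF X' d' (2 * m') N' K v - ch ρ' (σ v)⁻¹) * (nm K v : ℝ) ^ (m + m') : ℝ) : ℂ) := by
      push_cast
      ring
    rw [e, Complex.ofReal_im]
  have hsz := size_corr (((m + m' : ℕ) : ℝ)) π hnorm hreal U
    (1 : Representation ℂ (GK K) (Fin 1 → ℂ)) hx1 0 B
    (hb.mono fun v hv g hg z => by
      rw [hv.2.2 z]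
      have h1 : ∀ y : ℂ, LinearMap.det (1 - (y * z) •
          (1 : Representation ℂ (GK K) (Fin 1 → ℂ)) g⁻¹) = 1 - y * z := fun y => det_one _ _
      simp only [h1]
      exact (prd_prod (γ v).1 (γ v).2 (fun y => 1 - y * z)).symm)
    (by
      rw [edge_pair]
      exact hB.2) (LFun B) (fun s _ => rfl) σ hσ
  simp only [edge_pair] at hsz
  refine ⟨hsz.1, ?_⟩
  have htr : ∀ᶠ v in cofinite, tr (((m + m' : ℕ) : ℝ)) π v =
      tC ρ X d (2 * m) N s σ v * tC ρ' X' d' (2 * m') N' s' σ v := by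
    filter_upwards [hnorm, hreal, hsum, hgood, hgood'] with v h1 h2 h3 h4 h4'
    have h5 := tr_eq (w := ((m + m' : ℕ) : ℝ)) (α := π) (v := v) h1 h2
    rw [h3] at h5
    unfold tC
    rw [if_pos h4, if_pos h4']
    have h6 : ((nm K v : ℕ) : ℂ) ≠ 0 := by
      have := Pool.Agent.W353.L1.nm_pos v
      exact_mod_cast this.ne'
    have h7 : ((nm K v : ℕ) : ℂ) ^ (m + m') * ((nm K v : ℕ) : ℂ) ^ (-((((m + m' : ℕ) : ℝ)) : ℂ)) =
        1 := by
      have e : ((((m + m' : ℕ) : ℝ)) : ℂ) = ((m + m' : ℕ) : ℂ) := by push_cast; ring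
      rw [e, Complex.cpow_neg, Complex.cpow_natCast, mul_inv_cancel₀ (pow_ne_zero _ h6)]
    rw [mul_assoc, h7, mul_one] at h5
    exact_mod_cast h5
  have hcong := EP_cofinite (K := K)
    (φ := fun v => tC ρ X d (2 * m) N s σ v * tC ρ' X' d' (2 * m') N' s' σ v)
    (ψ := fun v => tr (((m + m' : ℕ) : ℝ)) π v)
    (B := (s : ℝ) * s') (C := ((s * s' : ℕ) : ℝ))
    (fun v => by
      rw [abs_mul]
      exact mul_le_mul (abs_tC _ _ _ _ _ _ _ _) (abs_tC _ _ _ _ _ _ _ _) (abs_nonneg _)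
        (by positivity))
    (fun v => abs_tr_le _ _ _)
    (htr.mono fun v hv => by rw [hv])
  have h8 := hcong.add hsz.2
  rw [add_zero] at h8
  refine h8.congr fun ε => ?_
  have e : (fun v => ((tr (((m + m' : ℕ) : ℝ)) π v : ℂ) *
      ((1 : Representation ℂ (GK K) (Fin 1 → ℂ)).character (σ v)⁻¹ * zz 0 v)).re) =
      fun v => tr (((m + m' : ℕ) : ℝ)) π v := by
    funext v
    rw [Complex.re_ofReal_mul]
    have := RR_one (K := K) σ v
    unfold RR at this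
    rw [this, mul_one]
  rw [e]
  unfold size
  ring

end

end Pool.Agent.H28.MR
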